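import Pool.Agent.H747R3.MoranC

/-!
# A Moran set of Lebesgue measure zero which is a set of multiplicity

Take the bases `M n = n + 3` and the digit sets `D n = {1, ..., M n - 2}`. Since `#(D n) / M n → 1`
the factors of the Fourier transform of the natural measure at non-zero frequencies `j / M n` are
small, and a three-scale argument shows that the natural measure is a Rajchman measure. Since
`∏ #(D n) / M n = 0` the Moran set has measure zero. Its Fourier–Stieltjes series converges to zero
at every point of `[0,1]` off the Moran set.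
-/

set_option autoImplicit false

open MeasureTheory Filter Topology

namespace Pool.Agent.Results.MP_c7f57c_an.MoranMultiplicity

/-- `E ⊆ [0,1]` is a set of uniqueness: if a trigonometric series
`∑ (a_n cos(2πnx) + b_n sin(2πnx))`, `n ≥ 0`, converges to `0` at every point of `[0,1] \ E`, then
`a_n = 0` for all `n ≥ 0` and `b_n = 0` for all `n ≥ 1` (the term of `b_0` is identically zero). -/
def IsSetOfUniqueness (E : Set ℝ) : Prop :=
  ∀ a b : ℕ → ℝ,
    (∀ x ∈ Set.Icc (0 : ℝ) 1 \ E, Tendsto (fun N : ℕ => ∑ n ∈ Finset.range N,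
      (a n * Real.cos (2 * Real.pi * n * x) + b n * Real.sin (2 * Real.pi * n * x))) atTop (𝓝 0)) →
    (∀ n, a n = 0) ∧ ∀ n, 1 ≤ n → b n = 0

/-- The Moran set of the bases `M` and digit sets `D` (indices starting at `0`): all sums
`∑ d_n / (M_0 M_1 ⋯ M_n)` with `d_n ∈ D_n`. -/
def moranSet (M : ℕ → ℕ) (D : ℕ → Finset ℕ) : Set ℝ :=
  {x | ∃ d : ℕ → ℕ, (∀ n, d n ∈ D n) ∧
    HasSum (fun n => (d n : ℝ) / ∏ i ∈ Finset.range (n + 1), ((M i : ℕ) : ℝ)) x}

/-- There are integers `M_n ≥ 2` and nonempty digit sets `D_n ⊆ {0, ..., M_n - 1}` such that the Moran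
set has Lebesgue measure zero and is not a set of uniqueness. -/
theorem result : ∃ (M : ℕ → ℕ) (D : ℕ → Finset ℕ), (∀ n, 2 ≤ M n) ∧
    (∀ n, (D n).Nonempty ∧ ∀ d ∈ D n, d < M n) ∧
    volume (moranSet M D) = 0 ∧ ¬ IsSetOfUniqueness (moranSet M D) := by
  refine ⟨H747R3.Moran.M, H747R3.Moran.D, fun n => ?_, fun n => ⟨?_, fun d hd => ?_⟩,
    H747R3.Moran.KK_volume, fun h => ?_⟩
  · unfold H747R3.Moran.M
    omega
  · exact ⟨1, by simp [H747R3.Moran.D]⟩
  · have := H747R3.Moran.D_pos n hd
    unfold H747R3.Moran.M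
    omega
  · obtain ⟨a, b, ha, hab⟩ := H747R3.Moran.main
    have h1 := (h a b hab).1 0
    rw [ha] at h1
    exact one_ne_zero h1

end Pool.Agent.Results.MP_c7f57c_an.MoranMultiplicity
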